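import Mathlib
import Pool.Agent.Q11.RackNine

set_option autoImplicit false
set_option linter.unusedSimpArgs false

namespace Pool.Agent.Results.MP_abbe90_al.NotYetterDrinfeld

open TensorProduct Coalgebra

universe u v w

/-- A rack bialgebra structure on the coalgebra `C`: a group-like element `one` and a coalgebra
morphism `op : C ⊗ C → C`, `x ⊗ y ↦ x ◁ y`, with `(x ◁ y) ◁ z = (x ◁ z₁) ◁ (y ◁ z₂)`, `x ◁ 1 = x` and
`1 ◁ x = ε(x) 1`. (The condition `ε(x ◁ y) = ε(x) ε(y)` is part of `→ₗc`.) -/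
structure RackBialgebra (k : Type u) [Field k] (C : Type v) [AddCommGroup C] [Module k C]
    [Coalgebra k C] where
  /-- the element `1` -/
  one : C
  /-- the operation `◁` -/
  op : C ⊗[k] C →ₗc[k] C
  comul_one : comul (R := k) one = one ⊗ₜ[k] one
  counit_one : counit (R := k) one = 1
  self_distrib : ∀ x y z : C, op (op (x ⊗ₜ y) ⊗ₜ z) =
    op (TensorProduct.map (op.toLinearMap ∘ₗ TensorProduct.mk k C C x)
      (op.toLinearMap ∘ₗ TensorProduct.mk k C C y) (comul (R := k) z))
  op_one : ∀ x : C, op (x ⊗ₜ one) = x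
  one_op : ∀ x : C, op (one ⊗ₜ x) = counit (R := k) x • one

/-- The rack bialgebra `C` is expressed as a Yetter-Drinfel'd rack over the bialgebra `H`: a right
`H`-module coalgebra structure `act : C ⊗ H → C` and a morphism `q : C → H` of counital coalgebras
with `q(1) = 1`, `a ◁ b = a · q(b)` and `h₁ q(a · h₂) = q(a) h`. -/
structure YetterDrinfeldStructure {k : Type u} [Field k] {C : Type v} [AddCommGroup C]
    [Module k C] [Coalgebra k C] (R : RackBialgebra k C) (H : Type w) [Ring H]
    [Bialgebra k H] where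
  /-- the right action of `H` on `C` -/
  act : C ⊗[k] H →ₗc[k] C
  act_one : ∀ x : C, act (x ⊗ₜ 1) = x
  act_mul : ∀ (x : C) (h g : H), act (x ⊗ₜ (h * g)) = act (act (x ⊗ₜ h) ⊗ₜ g)
  /-- the map `q` -/
  q : C →ₗc[k] H
  q_one : q R.one = 1
  op_eq : ∀ a b : C, R.op (a ⊗ₜ b) = act (a ⊗ₜ q b)
  yd : ∀ (a : C) (h : H), LinearMap.mul' k H (TensorProduct.map LinearMap.id
    (q.toLinearMap ∘ₗ act.toLinearMap ∘ₗ TensorProduct.mk k C H a) (comul (R := k) h)) = q a * h

section proofs

open Q11.RackNine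

variable (k : Type u) [Field k]

lemma rc (R : RackBialgebra k (C k)) (h1 : R.one = e k 0)
    (hop : ∀ i j, R.op (e k i ⊗ₜ e k j) = tab k i j) (H : Type w) [Ring H] [Bialgebra k H]
    (Y : YetterDrinfeldStructure R H) : False := by
  have ha : ∀ i j, Y.act (e k i ⊗ₜ Y.q (e k j)) = tab k i j := by
    intro i j
    rw [← Y.op_eq, hop]
  have hq1 : Y.q (e k 0) = 1 := by rw [← h1]; exact Y.q_one
  have hqcom : ∀ i, comul (R := k) (Y.q (e k i)) =
      TensorProduct.map Y.q.toLinearMap Y.q.toLinearMap (comT k i) := by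
    intro i
    rw [← comul_e]
    exact (CoalgHomClass.map_comp_comul_apply Y.q (e k i)).symm
  have c1 : comT k 1 = e k 1 ⊗ₜ e k 0 + e k 0 ⊗ₜ e k 1 := by simp [comT]
  have c7 : comT k 7 = e k 7 ⊗ₜ e k 0 + e k 0 ⊗ₜ e k 7 + e k 2 ⊗ₜ e k 3 := by simp [comT]
  have c8 : comT k 8 = e k 8 ⊗ₜ e k 0 + e k 0 ⊗ₜ e k 8 + e k 3 ⊗ₜ e k 3 := by simp [comT]
  have t10 : tab k 1 0 = e k 1 := by simp [tab]
  have t17 : tab k 1 7 = 0 := by simp [tab]
  have t13 : tab k 1 3 = 0 := by simp [tab]
  have t70 : tab k 7 0 = e k 7 := by simp [tab]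
  have t71 : tab k 7 1 = e k 8 := by simp [tab]
  have t43 : tab k 4 3 = - e k 6 := by simp [tab]
  have eq : ∀ x, Y.q.toLinearMap x = Y.q x := fun _ => rfl
  have ea : ∀ t, Y.act.toLinearMap t = Y.act t := fun _ => rfl
  -- `q(b) q(a) = q(a) q(b)`
  have f1 : Y.q (e k 7) * Y.q (e k 1) = Y.q (e k 1) * Y.q (e k 7) := by
    have h := Y.yd (e k 1) (Y.q (e k 7))
    rw [hqcom, c7] at h
    simp only [map_add, TensorProduct.map_tmul, LinearMap.mul'_apply, LinearMap.id_apply,
      LinearMap.comp_apply, TensorProduct.mk_apply, eq, ea, ha, t10, t17, t13,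
      map_zero, mul_zero, add_zero] at h
    exact h
  have f2 : Y.q (e k 1) * Y.q (e k 7) + Y.q (e k 8) = Y.q (e k 7) * Y.q (e k 1) := by
    have h := Y.yd (e k 7) (Y.q (e k 1))
    rw [hqcom, c1] at h
    simp only [map_add, TensorProduct.map_tmul, LinearMap.mul'_apply, LinearMap.id_apply,
      LinearMap.comp_apply, TensorProduct.mk_apply, eq, ea, ha, t70, t71,
      hq1, one_mul, Y.act_one] at h
    exact h
  have f3 : Y.q (e k 8) = 0 := by
    rw [f1] at f2
    simpa using f2
  have f4 : Y.q (e k 3) ⊗ₜ[k] Y.q (e k 3) = 0 := by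
    have h := hqcom 8
    rw [c8] at h
    simp only [map_add, TensorProduct.map_tmul, eq, ea, f3, zero_tmul,
      tmul_zero, map_zero, zero_add] at h
    exact h.symm
  have f5 : Y.q (e k 3) = 0 := by
    by_contra hne
    obtain ⟨φ, hφ⟩ : ∃ φ : Module.Dual k H, φ (Y.q (e k 3)) ≠ 0 := by
      by_contra hcon
      push Not at hcon
      exact hne ((Module.forall_dual_apply_eq_zero_iff k _).1 hcon)
    have h := congrArg (fun t => LinearMap.mul' k k (TensorProduct.map φ φ t)) f4
    simp only [TensorProduct.map_tmul, LinearMap.mul'_apply, map_zero, mul_self_eq_zero] at h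
    exact hφ h
  have f6 := ha 4 3
  rw [f5, tmul_zero, map_zero, t43] at f6
  have f7 := congrFun f6 6
  simp [e_apply] at f7

end proofs

/-- Over every field there is a rack bialgebra of dimension `9` that cannot be expressed as a
Yetter-Drinfel'd rack over any bialgebra. -/
theorem result (k : Type u) [Field k] :
    ∃ (C : Type u) (_ : AddCommGroup C) (_ : Module k C) (_ : Coalgebra k C)
      (R : RackBialgebra k C), Module.finrank k C = 9 ∧
        ∀ (H : Type w) [Ring H] [Bialgebra k H], IsEmpty (YetterDrinfeldStructure R H) :=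
  ⟨Q11.RackNine.C k, inferInstance, inferInstance, inferInstance,
    { one := Q11.RackNine.e k 0
      op := Q11.RackNine.op k
      comul_one := Q11.RackNine.comul_one k
      counit_one := Q11.RackNine.counit_one k
      self_distrib := Q11.RackNine.distrib k
      op_one := Q11.RackNine.opL_one k
      one_op := Q11.RackNine.one_opL k }, Q11.RackNine.finrankC k,
    fun H _ _ => ⟨fun Y => rc k _ rfl (fun i j => Q11.RackNine.opL_e k i j) H Y⟩⟩

end Pool.Agent.Results.MP_abbe90_al.NotYetterDrinfeld
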